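import Pool.Agent.Lib.MP_1ccaad_nt.Main

set_option autoImplicit false

namespace Pool.Agent.Results.MP_1ccaad_nt.LargeFactor

/-- `f p`: the least `n` with `p ∣ n! + 1`. -/
noncomputable def f (p : ℕ) : ℕ := sInf {n : ℕ | p ∣ n.factorial + 1}

/-- For every `C < 1 + 16 log 2 = 12.09...`: for a positive proportion of all `n` the number
`n! + 1` has a prime factor `p > C n`, and at least `c N / log N` primes `p` with `f(p) ≤ N`
satisfy `C f(p) < p` (in particular `lim inf f(p)/p ≤ 1/(1 + 16 log 2)`). -/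
theorem result (C : ℝ) (hC : C < 1 + 16 * Real.log 2) :
    ∃ c : ℝ, 0 < c ∧ ∃ N₀ : ℕ, ∀ N : ℕ, N₀ ≤ N →
      c * N ≤ ({n : ℕ | n ≤ N ∧ ∃ p : ℕ, p.Prime ∧ p ∣ n.factorial + 1 ∧ C * n < p}.ncard : ℝ) ∧
      c * (N / Real.log N) ≤ ({p : ℕ | p.Prime ∧ f p ≤ N ∧ C * f p < p}.ncard : ℝ) :=
  Pool.Agent.Lib.MP_1ccaad_nt.final C hC

end Pool.Agent.Results.MP_1ccaad_nt.LargeFactor
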