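import Mathlib

open Finset Filter Topology
open scoped Nat

namespace Pool.Agent.Results.MP_1ccaad_nt.Repulsion

/-- Product of the first `k` odd numbers. -/
def oddProd (k : ℕ) : ℕ := ∏ j ∈ range k, (2 * j + 1)

theorem oddProd_succ (k : ℕ) : oddProd (k + 1) = oddProd k * (2 * k + 1) := prod_range_succ _ _

theorem oddProd_odd (k : ℕ) : oddProd k % 2 = 1 := by
  induction k with
  | zero => simp [oddProd]
  | succ k ih =>
    rw [oddProd_succ, Nat.mul_mod, ih]
    omega

theorem two_mul_pow_le (k : ℕ) (hk : 1 ≤ k) : 2 * k ^ k ≤ (k + 1) ^ k := by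
  have h : (2 : ℝ) * (k : ℝ) ^ k ≤ ((k : ℝ) + 1) ^ k := by
    have hk0 : (0 : ℝ) < k := by exact_mod_cast hk
    have h0 : 0 < 1 / (k : ℝ) := by positivity
    have hb := one_add_mul_le_pow (a := 1 / (k : ℝ)) (by linarith) k
    have e : (k : ℝ) + 1 = k * (1 + 1 / k) := by field_simp
    rw [e, mul_pow, mul_comm]
    refine mul_le_mul_of_nonneg_left ?_ (by positivity)
    have : (k : ℝ) * (1 / k) = 1 := by field_simp
    linarith
  exact_mod_cast h

theorem oddProd_le (k : ℕ) : oddProd k ≤ k ^ k := by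
  induction k with
  | zero => simp [oddProd]
  | succ k ih =>
    rw [oddProd_succ]
    rcases Nat.eq_zero_or_pos k with rfl | hk
    · simp [oddProd]
    · have h := two_mul_pow_le k hk
      calc oddProd k * (2 * k + 1) ≤ k ^ k * (2 * (k + 1)) := Nat.mul_le_mul ih (by omega)
        _ = 2 * k ^ k * (k + 1) := by ring
        _ ≤ (k + 1) ^ k * (k + 1) := Nat.mul_le_mul_right _ h
        _ = (k + 1) ^ (k + 1) := by ring

/-- A number at most `z ^ k` has at most `k` prime factors larger than `z`. -/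
theorem card_large (N z k : ℕ) (hN : N ≠ 0) (hz : 1 ≤ z) (h : N ≤ z ^ k) :
    (N.primeFactors.filter (fun q => z < q)).card ≤ k := by
  set S := N.primeFactors.filter (fun q => z < q) with hS
  have h1 : (z + 1) ^ S.card ≤ ∏ q ∈ S, q := by
    rw [← prod_const]
    exact prod_le_prod' fun q hq => by
      have := (mem_filter.1 hq).2
      omega
  have h2 : ∏ q ∈ S, q ≤ N := by
    have h3 : ∏ q ∈ S, q ∣ ∏ q ∈ N.primeFactors, q :=
      prod_dvd_prod_of_subset _ _ _ (filter_subset _ _)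
    exact Nat.le_of_dvd (Nat.pos_of_ne_zero hN) (h3.trans (Nat.prod_primeFactors_dvd N))
  have h3 : (z + 1) ^ S.card ≤ (z + 1) ^ k :=
    (h1.trans h2).trans (h.trans (Nat.pow_le_pow_left (Nat.le_succ z) k))
  exact (Nat.pow_le_pow_iff_right (by omega)).1 h3

section mod

variable (p : ℕ) [hp : Fact p.Prime]

theorem split (k : ℕ) : ∀ n : ℕ, n + k + 1 = p → ((n ! : ℕ) : ZMod p) * (k ! : ℕ) = (-1) ^ (k + 1) := by
  induction k with
  | zero =>
    intro n hn
    have : n = p - 1 := by omega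
    subst this
    simp [ZMod.wilsons_lemma]
  | succ k ih =>
    intro n hn
    have h := ih (n + 1) (by omega)
    have e : ((n + 1 : ℕ) : ZMod p) = - ((k + 1 : ℕ) : ZMod p) := by
      rw [eq_neg_iff_add_eq_zero, ← Nat.cast_add]
      have : n + 1 + (k + 1) = p := by omega
      rw [this]
      exact ZMod.natCast_self p
    rw [Nat.factorial_succ, Nat.cast_mul, e] at h
    rw [Nat.factorial_succ, Nat.cast_mul, pow_succ, ← h]
    ring

theorem plus (m : ℕ) (hm : 2 * m + 1 = p) (k : ℕ) :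
    (2 : ZMod p) ^ k * ((m + k) ! : ℕ) = (oddProd k : ℕ) * (m ! : ℕ) := by
  induction k with
  | zero => simp [oddProd]
  | succ k ih =>
    have e : (2 : ZMod p) * ((m + k + 1 : ℕ) : ZMod p) = ((2 * k + 1 : ℕ) : ZMod p) := by
      have h0 : ((2 * m + 1 : ℕ) : ZMod p) = 0 := by rw [hm]; exact ZMod.natCast_self p
      push_cast at h0 ⊢
      linear_combination h0
    rw [← Nat.add_assoc, Nat.factorial_succ, oddProd_succ, Nat.cast_mul, Nat.cast_mul, ← e]
    linear_combination (2 * ((m + k + 1 : ℕ) : ZMod p)) * ih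

theorem minus (k : ℕ) : ∀ n : ℕ, 2 * (n + k) + 1 = p →
    (2 : ZMod p) ^ k * ((n + k) ! : ℕ) = (-1) ^ k * (oddProd k : ℕ) * (n ! : ℕ) := by
  induction k with
  | zero => intro n _; simp [oddProd]
  | succ k ih =>
    intro n hn
    have h := ih (n + 1) (by omega)
    have e : (2 : ZMod p) * ((n + 1 : ℕ) : ZMod p) = - ((2 * k + 1 : ℕ) : ZMod p) := by
      have h0 : ((2 * (n + (k + 1)) + 1 : ℕ) : ZMod p) = 0 := by
        rw [hn]; exact ZMod.natCast_self p
      push_cast at h0 ⊢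
      linear_combination h0
    have e2 : n + (k + 1) = n + 1 + k := by ring
    rw [Nat.factorial_succ n, Nat.cast_mul] at h
    rw [e2, oddProd_succ, Nat.cast_mul, pow_succ, pow_succ]
    linear_combination 2 * h + ((-1) ^ k * (oddProd k : ZMod p) * (n ! : ℕ)) * e

theorem half_pow_four (m : ℕ) (hm : 2 * m + 1 = p) : ((m ! : ℕ) : ZMod p) ^ 4 = 1 := by
  have h := split p m m (by omega)
  have : ((m ! : ℕ) : ZMod p) ^ 4 = (((m ! : ℕ) : ZMod p) * (m ! : ℕ)) ^ 2 := by ring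
  rw [this, h, ← pow_mul, mul_comm, pow_mul]
  simp

theorem sol_top (n k : ℕ) (h : n + k + 1 = p) (hs : ((n ! : ℕ) : ZMod p) = -1) :
    (p : ℤ) ∣ (k ! : ℤ) - (-1) ^ k := by
  have h1 := split p k n h
  rw [hs] at h1
  rw [← ZMod.intCast_zmod_eq_zero_iff_dvd]
  push_cast
  rw [pow_succ] at h1
  linear_combination -h1

theorem sol_mid (n m k : ℕ) (hm : 2 * m + 1 = p) (h : n = m + k ∨ m = n + k)
    (hs : ((n ! : ℕ) : ZMod p) = -1) : (p : ℤ) ∣ 16 ^ k - (oddProd k : ℤ) ^ 4 := by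
  have h4 := half_pow_four p m hm
  rw [← ZMod.intCast_zmod_eq_zero_iff_dvd]
  push_cast
  have h16 : (16 : ZMod p) ^ k = ((2 : ZMod p) ^ k) ^ 4 := by
    rw [← pow_mul, mul_comm k 4, pow_mul]; norm_num
  rcases h with rfl | rfl
  · have h1 := plus p m hm k
    rw [hs] at h1
    have h2 : ((2 : ZMod p) ^ k) ^ 4 = (oddProd k : ZMod p) ^ 4 := by
      have : ((2 : ZMod p) ^ k * -1) ^ 4 = ((oddProd k : ℕ) * ((m ! : ℕ) : ZMod p)) ^ 4 := by
        rw [h1]
      rw [mul_pow, mul_pow, h4] at this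
      linear_combination this
    rw [h16, h2, sub_self]
  · have h1 := minus p k n hm
    rw [hs] at h1
    have h2 : ((2 : ZMod p) ^ k) ^ 4 = (oddProd k : ZMod p) ^ 4 := by
      have : ((2 : ZMod p) ^ k * ((n + k) ! : ℕ)) ^ 4 = ((-1) ^ k * (oddProd k : ℕ) * (-1)) ^ 4 := by
        rw [h1]
      have e : ((-1 : ZMod p) ^ k) ^ 4 = 1 := by
        rw [← pow_mul, mul_comm k 4, pow_mul]; norm_num
      rw [mul_pow, mul_pow, mul_pow, h4, e] at this
      linear_combination this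
    rw [h16, h2, sub_self]

end mod



/-- The exceptional solutions: `n! = -1 mod p`, `n` is neither `p - 1` nor `(p - 1) / 2`, and
`n` is at distance at most `y` from `0`, `(p - 1) / 2` or `p - 1`. -/
def Exc (y p : ℕ) : Prop :=
  ∃ n : ℕ, p ∣ n ! + 1 ∧ n + 1 ≠ p ∧ 2 * n + 1 ≠ p ∧
    (n ≤ y ∨ p ≤ n + 1 + y ∨ (2 * n + 1 ≤ p + 2 * y ∧ p ≤ 2 * n + 1 + 2 * y))

/-- The three numbers whose large prime factors are the exceptional primes. -/
def NA (k : ℕ) : ℕ := k ! + 1
def NB (k : ℕ) : ℕ := ((k ! : ℤ) - (-1) ^ k).natAbs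
def NC (k : ℕ) : ℕ := ((16 : ℤ) ^ k - (oddProd k : ℤ) ^ 4).natAbs

theorem fact_succ_le (k z : ℕ) (hk : 1 ≤ k) (hkz : k ≤ z) (hz : 2 ≤ z) : k ! + 1 ≤ z ^ k := by
  rcases Nat.lt_or_ge k 2 with h | h
  · have : k = 1 := by omega
    subst this
    simpa using hz
  · have h1 : k ! < k ^ k := by
      obtain ⟨m, rfl⟩ : ∃ m, k = m + 2 := ⟨k - 2, by omega⟩
      rw [show m + 2 = (m + 1) + 1 from rfl, Nat.factorial_succ, pow_succ, mul_comm]
      refine Nat.mul_lt_mul_of_pos_right ?_ (by omega)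
      calc (m + 1) ! ≤ (m + 1) ^ (m + 1) := Nat.factorial_le_pow _
        _ < (m + 1 + 1) ^ (m + 1) := Nat.pow_lt_pow_left (by omega) (by omega)
    exact le_trans h1 (Nat.pow_le_pow_left hkz k)

theorem NB_ne (k : ℕ) (hk : 1 ≤ k) : NB k ≠ 0 := by
  unfold NB
  rw [Int.natAbs_ne_zero]
  intro h
  rcases Nat.even_or_odd k with he | ho
  · rw [he.neg_one_pow] at h
    have h1 : (k ! : ℤ) = 1 := by linarith
    have h2 : k ! = 1 := by exact_mod_cast h1
    have h3 := Nat.factorial_eq_one.1 h2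
    have : k = 1 := by omega
    subst this
    exact absurd he (by decide)
  · rw [ho.neg_one_pow] at h
    have h1 : 0 < (k ! : ℤ) := by exact_mod_cast Nat.factorial_pos k
    linarith

theorem NB_le (k z : ℕ) (hk : 1 ≤ k) (hkz : k ≤ z) (hz : 2 ≤ z) : NB k ≤ z ^ k := by
  refine le_trans ?_ (fact_succ_le k z hk hkz hz)
  unfold NB
  have h1 : ((k ! : ℤ) - (-1) ^ k).natAbs ≤ (k ! : ℤ).natAbs + ((-1 : ℤ) ^ k).natAbs :=
    Int.natAbs_sub_le _ _
  have h2 : ((-1 : ℤ) ^ k).natAbs = 1 := by rw [Int.natAbs_pow]; simp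
  rw [h2] at h1
  simpa using h1

theorem NC_ne (k : ℕ) (hk : 1 ≤ k) : NC k ≠ 0 := by
  unfold NC
  rw [Int.natAbs_ne_zero]
  intro h
  have h1 : (16 : ℤ) ^ k = (oddProd k : ℤ) ^ 4 := by linarith
  have h2 : (16 : ℕ) ^ k = oddProd k ^ 4 := by exact_mod_cast h1
  have h3 : (16 ^ k) % 2 = 0 := by
    rw [Nat.pow_mod]
    simp [Nat.zero_pow hk]
  have h4 : (oddProd k ^ 4) % 2 = 1 := by
    rw [Nat.pow_mod, oddProd_odd]
  omega

theorem NC_le (k z : ℕ) (hkz : k ≤ z) (hz : 2 ≤ z) : NC k ≤ z ^ (4 * k) := by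
  have h1 : (16 : ℕ) ^ k ≤ z ^ (4 * k) := by
    rw [pow_mul]
    exact Nat.pow_le_pow_left (by calc 16 = 2 ^ 4 := by norm_num
                                    _ ≤ z ^ 4 := Nat.pow_le_pow_left hz 4) k
  have h2 : oddProd k ^ 4 ≤ z ^ (4 * k) := by
    rw [mul_comm, pow_mul]
    exact Nat.pow_le_pow_left ((oddProd_le k).trans (Nat.pow_le_pow_left hkz k)) 4
  unfold NC
  have e : (16 : ℤ) ^ k - (oddProd k : ℤ) ^ 4 = ((16 ^ k : ℕ) : ℤ) - ((oddProd k ^ 4 : ℕ) : ℤ) := by
    push_cast; ring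
  rw [e]
  generalize 16 ^ k = a at *
  generalize oddProd k ^ 4 = b at *
  omega

theorem exc_cover (x y p : ℕ) (hy : y ≤ Nat.sqrt x) (hx : 4 ≤ x) (hp : p.Prime)
    (hzp : Nat.sqrt x < p) (he : Exc y p) :
    ∃ k ∈ Icc 1 y, p ∣ NA k ∨ p ∣ NB k ∨ p ∣ NC k := by
  have hz : 2 ≤ Nat.sqrt x := Nat.le_sqrt.2 (by omega)
  have : Fact p.Prime := ⟨hp⟩
  obtain ⟨n, hn, h1, h2, h3⟩ := he
  have hp3 : 3 ≤ p := by omega
  have hodd : p % 2 = 1 := hp.eq_two_or_odd.resolve_left (by omega)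
  have hs : ((n ! : ℕ) : ZMod p) = -1 := by
    have := (ZMod.natCast_eq_zero_iff _ _).2 hn
    push_cast at this
    exact eq_neg_of_add_eq_zero_left this
  have hlt : n < p := by
    by_contra hcon
    push Not at hcon
    have hd : p ∣ n ! := (Nat.Prime.dvd_factorial hp).2 hcon
    have := (Nat.dvd_add_right hd).1 hn
    have := Nat.le_of_dvd one_pos this
    omega
  rcases h3 with h3 | h3 | h3
  · refine ⟨n, ?_, Or.inl hn⟩
    rw [mem_Icc]
    refine ⟨?_, h3⟩
    by_contra hcon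
    have : n = 0 := by omega
    subst this
    simp at hn
    have := Nat.le_of_dvd (by norm_num) hn
    omega
  · refine ⟨p - 1 - n, ?_, Or.inr (Or.inl ?_)⟩
    · rw [mem_Icc]; omega
    · have := sol_top p n (p - 1 - n) (by omega) hs
      unfold NB
      exact Int.natCast_dvd.1 this
  · obtain ⟨m, hm⟩ : ∃ m, 2 * m + 1 = p := ⟨p / 2, by omega⟩
    rcases Nat.lt_or_ge n m with h | h
    · refine ⟨m - n, ?_, Or.inr (Or.inr ?_)⟩
      · rw [mem_Icc]; omega
      · have := sol_mid p n m (m - n) hm (Or.inr (by omega)) hs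
        unfold NC
        exact Int.natCast_dvd.1 this
    · refine ⟨n - m, ?_, Or.inr (Or.inr ?_)⟩
      · rw [mem_Icc]; omega
      · have := sol_mid p n m (n - m) hm (Or.inl (by omega)) hs
        unfold NC
        exact Int.natCast_dvd.1 this

open Classical in
/-- Explicit bound for the number of exceptional primes. -/
theorem exc_count (x y : ℕ) (hy : y ≤ Nat.sqrt x) (hx : 4 ≤ x) :
    ((Icc 1 x).filter (fun p => p.Prime ∧ Exc y p)).card ≤ Nat.sqrt x + 3 * y * (y + 1) := by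
  set z := Nat.sqrt x with hzdef
  have hz : 2 ≤ z := Nat.le_sqrt.2 (by omega)
  have hsub : (Icc 1 x).filter (fun p => p.Prime ∧ Exc y p) ⊆ Icc 1 z ∪
      (Icc 1 y).biUnion (fun k => (NA k).primeFactors.filter (fun q => z < q) ∪
        ((NB k).primeFactors.filter (fun q => z < q) ∪
          (NC k).primeFactors.filter (fun q => z < q))) := by
    intro p hp
    rw [mem_filter, mem_Icc] at hp
    obtain ⟨⟨h1, h2⟩, hpp, he⟩ := hp
    rw [mem_union]
    rcases Nat.lt_or_ge z p with h | h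
    · right
      obtain ⟨k, hk, hd⟩ := exc_cover x y p hy hx hpp h he
      rw [mem_biUnion]
      refine ⟨k, hk, ?_⟩
      have hk1 := (mem_Icc.1 hk).1
      simp only [mem_union, mem_filter, Nat.mem_primeFactors]
      rcases hd with hd | hd | hd
      · exact Or.inl ⟨⟨hpp, hd, by unfold NA; omega⟩, h⟩
      · exact Or.inr (Or.inl ⟨⟨hpp, hd, NB_ne k hk1⟩, h⟩)
      · exact Or.inr (Or.inr ⟨⟨hpp, hd, NC_ne k hk1⟩, h⟩)
    · left
      rw [mem_Icc]; omega
  refine (card_le_card hsub).trans ((card_union_le _ _).trans ?_)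
  rw [Nat.card_Icc, Nat.add_sub_cancel]
  refine Nat.add_le_add_left ?_ _
  refine card_biUnion_le.trans ?_
  have hsum : ∑ k ∈ Icc 1 y, ((NA k).primeFactors.filter (fun q => z < q) ∪
        ((NB k).primeFactors.filter (fun q => z < q) ∪
          (NC k).primeFactors.filter (fun q => z < q))).card ≤ ∑ k ∈ Icc 1 y, 6 * k := by
    refine sum_le_sum fun k hk => ?_
    rw [mem_Icc] at hk
    have hkz : k ≤ z := hk.2.trans hy
    have h1 := card_large (NA k) z k (by unfold NA; omega) (by omega)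
      (fact_succ_le k z hk.1 hkz hz)
    have h2 := card_large (NB k) z k (NB_ne k hk.1) (by omega) (NB_le k z hk.1 hkz hz)
    have h3 := card_large (NC k) z (4 * k) (NC_ne k hk.1) (by omega) (NC_le k z hkz hz)
    refine (card_union_le _ _).trans ((Nat.add_le_add_left (card_union_le _ _) _).trans ?_)
    omega
  refine hsum.trans ?_
  rw [← mul_sum]
  have : ∑ k ∈ Icc 1 y, k = y * (y + 1) / 2 := by
    have h := Finset.sum_range_id_mul_two (y + 1)
    have h2 : ∑ k ∈ Icc 1 y, k = ∑ k ∈ range (y + 1), k := by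
      rw [range_eq_Ico, sum_eq_sum_Ico_succ_bot (by omega), zero_add, zero_add]
      rfl
    rw [h2, Finset.sum_range_id]
    congr 1
    rw [Nat.add_sub_cancel]; ring
  rw [this, mul_assoc]
  obtain ⟨t, ht⟩ := Nat.even_mul_succ_self y
  omega

/-- The condition of the theorem: every solution of `n! = -1 mod p`, other than `p - 1` and
`(p - 1) / 2`, is at distance more than `t` from `0`, `(p - 1) / 2` and `p - 1`. -/
def Good (t : ℝ) (p : ℕ) : Prop :=
  ∀ n : ℕ, p ∣ n ! + 1 → n + 1 = p ∨ 2 * n + 1 = p ∨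
    (t < (n : ℝ) ∧ t < (p : ℝ) - 1 - n ∧ t < |(n : ℝ) - ((p : ℝ) - 1) / 2|)

theorem exc_of_not_good {t Y : ℝ} (htY : t ≤ Y) {p : ℕ} (hp : p.Prime) (hp3 : 3 ≤ p)
    (h : ¬ Good t p) : Exc ⌊Y⌋₊ p := by
  unfold Good at h
  push Not at h
  obtain ⟨n, hn, h1, h2, h3⟩ := h
  refine ⟨n, hn, h1, h2, ?_⟩
  have hodd : p % 2 = 1 := hp.eq_two_or_odd.resolve_left (by omega)
  rcases le_or_gt (n : ℝ) t with ha | ha
  · left
    exact Nat.le_floor (ha.trans htY)
  rcases le_or_gt ((p : ℝ) - 1 - n) t with hb | hb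
  · right; left
    by_contra hcon
    push Not at hcon
    have : p - 1 - n ≤ ⌊Y⌋₊ := by
      apply Nat.le_floor
      have : ((p - 1 - n : ℕ) : ℝ) = (p : ℝ) - 1 - n := by
        rw [Nat.cast_sub (by omega), Nat.cast_sub (by omega)]; simp
      rw [this]
      exact hb.trans htY
    omega
  · right; right
    have hc := h3 ha hb
    obtain ⟨m, hm⟩ : ∃ m, 2 * m + 1 = p := ⟨p / 2, by omega⟩
    have hmr : ((p : ℝ) - 1) / 2 = m := by
      rw [← hm]; push_cast; ring
    rw [hmr] at hc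
    have hc2 := hc.trans htY
    rw [abs_le] at hc2
    rcases Nat.lt_or_ge n m with h | h
    · have : m - n ≤ ⌊Y⌋₊ := by
        apply Nat.le_floor
        rw [Nat.cast_sub h.le]
        linarith [hc2.1]
      omega
    · have : n - m ≤ ⌊Y⌋₊ := by
        apply Nat.le_floor
        rw [Nat.cast_sub h]
        linarith [hc2.2]
      omega

theorem pi_lower : ∀ᶠ x : ℕ in atTop, (x : ℝ) / (2 * Real.log x) ≤ Nat.primeCounting x := by
  have h1 : ∀ᶠ x : ℝ in atTop, Real.log x ≤ (1 / 16) * x := by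
    have := Real.isLittleO_log_id_atTop.def (c := 1 / 16) (by norm_num)
    filter_upwards [this, eventually_ge_atTop 1] with x hx hx1
    rw [Real.norm_of_nonneg (Real.log_nonneg hx1)] at hx
    simpa [abs_of_nonneg (by linarith : (0 : ℝ) ≤ x)] using hx
  have h2 : ∀ᶠ x : ℕ in atTop, Real.log ((x : ℝ) + 1) ≤ (1 / 16) * ((x : ℝ) + 1) := by
    have h3 : Tendsto (fun x : ℕ => (x : ℝ) + 1) atTop atTop :=
      tendsto_atTop_add_const_right _ _ tendsto_natCast_atTop_atTop
    exact h3.eventually h1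
  filter_upwards [h2, eventually_ge_atTop 3] with x hx hx3
  refine le_trans ?_ (Chebyshev.pi_ge x)
  have hx0 : (3 : ℝ) ≤ x := by exact_mod_cast hx3
  have hlog : 0 < Real.log x := Real.log_pos (by linarith)
  rw [div_le_div_iff₀ (by positivity) hlog]
  have hl2 := Real.log_two_gt_d9
  have : (x : ℝ) / 2 ≤ x * Real.log 2 - Real.log (x + 1) := by nlinarith
  nlinarith

open Classical in
theorem bad_small (s : ℕ → ℝ)
    (hs : Tendsto (fun p : ℕ => s p * √(Real.log p / p)) atTop (𝓝 0)) (ε : ℝ) (hε : 0 < ε) :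
    ∀ᶠ x : ℕ in atTop, (((Icc 1 x).filter (fun p => p.Prime ∧ ¬ Good (s p) p)).card : ℝ)
      ≤ ε * Nat.primeCounting x := by
  set δ : ℝ := min 1 (√(ε / 12)) with hδ
  have hδ0 : 0 < δ := lt_min one_pos (Real.sqrt_pos.2 (by positivity))
  have hδ1 : δ ≤ 1 := min_le_left _ _
  have hδ2 : 6 * δ ^ 2 ≤ ε / 2 := by
    have h1 : δ ^ 2 ≤ (√(ε / 12)) ^ 2 := pow_le_pow_left₀ hδ0.le (min_le_right _ _) 2
    rw [Real.sq_sqrt (by positivity)] at h1
    linarith
  have h1 : ∀ᶠ p : ℕ in atTop, s p * √(Real.log p / p) ≤ δ :=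
    (hs.eventually (ge_mem_nhds hδ0))
  obtain ⟨p0, hp0⟩ := eventually_atTop.1 h1
  set P := max p0 3
  have hlim : Tendsto (fun x : ℕ => 2 * ((P : ℝ) + 4 * √(x : ℝ)) * Real.log x / x) atTop (𝓝 0) := by
    have ha : Tendsto (fun x : ℝ => Real.log x / x ^ ((1 : ℝ) / 2)) atTop (𝓝 0) :=
      (isLittleO_log_rpow_atTop (by norm_num)).tendsto_div_nhds_zero
    have hb : Tendsto (fun x : ℝ => Real.log x / x) atTop (𝓝 0) :=
      Real.isLittleO_log_id_atTop.tendsto_div_nhds_zero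
    have hc : Tendsto (fun x : ℝ => 2 * (P : ℝ) * (Real.log x / x)
        + 8 * (Real.log x / x ^ ((1 : ℝ) / 2))) atTop (𝓝 0) := by
      simpa using (hb.const_mul (2 * (P : ℝ))).add (ha.const_mul 8)
    refine (hc.comp tendsto_natCast_atTop_atTop).congr' ?_
    filter_upwards [eventually_ge_atTop 1] with x hx
    have hx0 : (0 : ℝ) < x := by exact_mod_cast hx
    have hsq : √(x : ℝ) * √(x : ℝ) = x := Real.mul_self_sqrt hx0.le
    have hsp : 0 < √(x : ℝ) := Real.sqrt_pos.2 hx0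
    simp only [Function.comp]
    rw [← Real.sqrt_eq_rpow]
    field_simp
    linear_combination (-8 * Real.log x) * hsq
  filter_upwards [pi_lower, hlim.eventually (ge_mem_nhds (by positivity : (0 : ℝ) < ε / 2)),
    eventually_ge_atTop 4, eventually_ge_atTop P] with x hpi hx hx4 hxP
  have hx4r : (4 : ℝ) ≤ x := by exact_mod_cast hx4
  have hx0 : (0 : ℝ) < x := by linarith
  have hlog1 : 1 < Real.log x := by
    have := Real.exp_one_lt_d9
    rw [Real.lt_log_iff_exp_lt hx0]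
    linarith
  have hlog : 0 < Real.log x := by linarith
  set r : ℝ := √(Real.log x / x) with hr
  have hr0 : 0 < r := Real.sqrt_pos.2 (by positivity)
  set Y : ℝ := δ / r with hY
  have hY0 : 0 < Y := by positivity
  have hY2 : Y ^ 2 = δ ^ 2 * (x / Real.log x) := by
    rw [hY, div_pow, hr, Real.sq_sqrt (by positivity)]
    field_simp
  have hYle : Y ^ 2 ≤ x := by
    rw [hY2]
    have h2 : δ ^ 2 ≤ 1 := by nlinarith
    have h3 : (x : ℝ) / Real.log x ≤ x := by
      rw [div_le_iff₀ hlog]; nlinarith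
    have h4 : 0 ≤ (x : ℝ) / Real.log x := by positivity
    nlinarith
  have hYs : Y ≤ √(x : ℝ) := Real.le_sqrt_of_sq_le hYle
  have hfl : (⌊Y⌋₊ : ℝ) ≤ Y := Nat.floor_le hY0.le
  have hy : ⌊Y⌋₊ ≤ Nat.sqrt x := by
    rw [Nat.le_sqrt']
    have : ((⌊Y⌋₊ ^ 2 : ℕ) : ℝ) ≤ x := by
      push_cast
      calc (⌊Y⌋₊ : ℝ) ^ 2 ≤ Y ^ 2 := pow_le_pow_left₀ (Nat.cast_nonneg _) hfl 2
        _ ≤ x := hYle
    exact_mod_cast this
  have hcount := exc_count x ⌊Y⌋₊ hy hx4
  have hsub : (Icc 1 x).filter (fun p => p.Prime ∧ ¬ Good (s p) p) ⊆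
      Icc 1 P ∪ (Icc 1 x).filter (fun p => p.Prime ∧ Exc ⌊Y⌋₊ p) := by
    intro p hp
    rw [mem_filter, mem_Icc] at hp
    obtain ⟨⟨hp1, hpx⟩, hpp, hg⟩ := hp
    rw [mem_union]
    rcases Nat.le_total p P with h | h
    · left; rw [mem_Icc]; exact ⟨hp1, h⟩
    · right
      rw [mem_filter, mem_Icc]
      refine ⟨⟨hp1, hpx⟩, hpp, ?_⟩
      have hp3 : 3 ≤ p := (le_max_right p0 3).trans h
      refine exc_of_not_good ?_ hpp hp3 hg
      have hsp := hp0 p ((le_max_left p0 3).trans h)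
      have he : Real.exp 1 ≤ (p : ℝ) := by
        have := Real.exp_one_lt_d9
        have h3 : (3 : ℝ) ≤ p := by exact_mod_cast hp3
        linarith
      have hpxr : (p : ℝ) ≤ x := by exact_mod_cast hpx
      have hmono : r ≤ √(Real.log p / p) :=
        Real.sqrt_le_sqrt (Real.log_div_self_antitoneOn he (he.trans hpxr) hpxr)
      rw [hY, le_div_iff₀ hr0]
      rcases le_or_gt (s p) 0 with hn | hn
      · have : s p * r ≤ 0 := mul_nonpos_of_nonpos_of_nonneg hn hr0.le
        linarith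
      · exact (mul_le_mul_of_nonneg_left hmono hn.le).trans hsp
  have hcard := (card_le_card hsub).trans (card_union_le _ _)
  rw [Nat.card_Icc, Nat.add_sub_cancel] at hcard
  have hcard2 : (((Icc 1 x).filter (fun p => p.Prime ∧ ¬ Good (s p) p)).card : ℝ)
      ≤ P + (√(x : ℝ) + 3 * (Y * (Y + 1))) := by
    have h5 : (((Icc 1 x).filter (fun p => p.Prime ∧ ¬ Good (s p) p)).card : ℝ)
        ≤ ((P + (Nat.sqrt x + 3 * ⌊Y⌋₊ * (⌊Y⌋₊ + 1)) : ℕ) : ℝ) := by
      exact_mod_cast hcard.trans (Nat.add_le_add_left hcount _)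
    refine h5.trans ?_
    push_cast
    have h6 : (Nat.sqrt x : ℝ) ≤ √(x : ℝ) := Real.nat_sqrt_le_real_sqrt
    have h7 : (0 : ℝ) ≤ ⌊Y⌋₊ := Nat.cast_nonneg _
    have h8 : (⌊Y⌋₊ : ℝ) * (⌊Y⌋₊ + 1) ≤ Y * (Y + 1) := by
      apply mul_le_mul hfl (by linarith) (by linarith) hY0.le
    linarith
  have hpi2 : (x : ℝ) ≤ 2 * Real.log x * Nat.primeCounting x := by
    rw [div_le_iff₀ (by positivity)] at hpi
    linarith
  have hx2 : 2 * ((P : ℝ) + 4 * √(x : ℝ)) * Real.log x ≤ ε / 2 * x := by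
    rwa [div_le_iff₀ hx0] at hx
  have hpi0 : (0 : ℝ) ≤ Nat.primeCounting x := Nat.cast_nonneg _
  have hY3 : Y ^ 2 * Real.log x = δ ^ 2 * x := by
    rw [hY2]; field_simp
  have hkey : (P + (√(x : ℝ) + 3 * (Y * (Y + 1)))) * (2 * Real.log x) ≤ ε * x := by
    have : (P + (√(x : ℝ) + 3 * (Y * (Y + 1)))) * (2 * Real.log x)
        ≤ 2 * ((P : ℝ) + 4 * √(x : ℝ)) * Real.log x + 6 * (Y ^ 2 * Real.log x) := by
      nlinarith
    rw [hY3] at this
    nlinarith
  refine hcard2.trans ?_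
  have h9 : (P + (√(x : ℝ) + 3 * (Y * (Y + 1)))) * (2 * Real.log x)
      ≤ (ε * Nat.primeCounting x) * (2 * Real.log x) := by
    refine hkey.trans ?_
    nlinarith
  exact le_of_mul_le_mul_right h9 (by positivity)

open Classical in
/-- For `s(p) = o(√(p / log p))`, for almost all primes `p` every solution `n` of
`n! ≡ -1 (mod p)` other than `p - 1` and `(p - 1) / 2` is at distance more than `s(p)` from
`0`, `(p - 1) / 2` and `p - 1`. -/
theorem result (s : ℕ → ℝ)
    (hs : Tendsto (fun p : ℕ => s p * √(Real.log p / p)) atTop (𝓝 0)) :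
    Tendsto (fun x : ℕ => (((Icc 1 x).filter (fun p => p.Prime ∧ Good (s p) p)).card : ℝ)
      / Nat.primeCounting x) atTop (𝓝 1) := by
  have hsum : ∀ x : ℕ, ((Icc 1 x).filter (fun p => p.Prime ∧ Good (s p) p)).card +
      ((Icc 1 x).filter (fun p => p.Prime ∧ ¬ Good (s p) p)).card = Nat.primeCounting x := by
    intro x
    have h1 : Nat.primeCounting x = ((Icc 1 x).filter Nat.Prime).card := by
      rw [Nat.primeCounting, Nat.primeCounting', Nat.count_eq_card_filter_range]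
      congr 1
      ext p
      simp only [mem_filter, mem_range, mem_Icc]
      constructor
      · rintro ⟨h1, h2⟩
        exact ⟨⟨h2.one_lt.le, by omega⟩, h2⟩
      · rintro ⟨h1, h2⟩
        exact ⟨by omega, h2⟩
    rw [h1, ← filter_filter, ← filter_filter]
    exact card_filter_add_card_filter_not _
  rw [Metric.tendsto_atTop]
  intro ε hε
  have h := (bad_small s hs (ε / 2) (by positivity)).and (eventually_ge_atTop 2)
  obtain ⟨N, hN⟩ := eventually_atTop.1 h
  refine ⟨N, fun x hx => ?_⟩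
  obtain ⟨h1, h2⟩ := hN x hx
  have hpos : (0 : ℝ) < Nat.primeCounting x := by
    have : 0 < Nat.primeCounting x := by
      have h3 : Nat.primeCounting 2 ≤ Nat.primeCounting x := Nat.monotone_primeCounting h2
      have h4 : 0 < Nat.primeCounting 2 := by decide
      omega
    exact_mod_cast this
  have h3 : ((((Icc 1 x).filter (fun p => p.Prime ∧ Good (s p) p)).card : ℝ)) =
      Nat.primeCounting x - (((Icc 1 x).filter (fun p => p.Prime ∧ ¬ Good (s p) p)).card : ℝ) := by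
    have := hsum x
    rw [← this]; push_cast; ring
  rw [Real.dist_eq, h3, sub_div, div_self hpos.ne']
  have h4 : (0 : ℝ) ≤ (((Icc 1 x).filter (fun p => p.Prime ∧ ¬ Good (s p) p)).card : ℝ)
      / Nat.primeCounting x := by positivity
  have h5 : (((Icc 1 x).filter (fun p => p.Prime ∧ ¬ Good (s p) p)).card : ℝ)
      / Nat.primeCounting x ≤ ε / 2 := by
    rw [div_le_iff₀ hpos]; exact h1
  rw [abs_lt]
  constructor <;> linarith

end Pool.Agent.Results.MP_1ccaad_nt.Repulsion
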